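import Pool.Agent.W181.WH.Stm

/-!
# WH-FLIP: reversal of the indices
-/

open MeasureTheory Filter Topology

namespace Pool.Agent.W573.WH.Flip

open Pool.Agent.W181.WH

noncomputable section

/-- the permutation of the coordinates -/
def sw {n : ℕ} (p : LIdx n) : LIdx n :=
  ⟨(Fin.rev p.1.2, Fin.rev p.1.1), Fin.rev_lt_rev.mpr p.2⟩

theorem sw_sw {n : ℕ} (p : LIdx n) : sw (sw p) = p := by
  obtain ⟨⟨i, j⟩, h⟩ := p
  simp [sw]

/-- the permutation as an equivalence -/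
def swE (n : ℕ) : LIdx n ≃ LIdx n := ⟨sw, sw, sw_sw, sw_sw⟩

/-- the sign `(-1)^(i+j)` -/
def sg {n : ℕ} (p : LIdx n) : ℝ := (-1) ^ (p.1.1 : ℕ) * (-1) ^ (p.1.2 : ℕ)

theorem sg_sq {n : ℕ} (p : LIdx n) : sg p * sg p = 1 := by
  unfold sg
  have h : ∀ k : ℕ, ((-1 : ℝ) ^ k) * (-1) ^ k = 1 := fun k => by
    rw [← mul_pow]; simp
  calc _ = ((-1 : ℝ) ^ (p.1.1 : ℕ) * (-1) ^ (p.1.1 : ℕ)) *
      ((-1) ^ (p.1.2 : ℕ) * (-1) ^ (p.1.2 : ℕ)) := by ring
    _ = 1 := by rw [h, h, one_mul]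

theorem sg_sw {n : ℕ} (p : LIdx n) : sg (sw p) = sg p := by
  obtain ⟨⟨i, j⟩, h⟩ := p
  have h' : (j : ℕ) < (i : ℕ) := h
  have hi := i.2
  unfold sg sw
  simp only [Fin.val_rev]
  rw [← pow_add, ← pow_add]
  have e : (n - ((j : ℕ) + 1)) + (n - ((i : ℕ) + 1)) + ((i : ℕ) + (j : ℕ) + 2) = 2 * n := by omega
  have e2 : ((-1 : ℝ)) ^ ((n - ((j : ℕ) + 1)) + (n - ((i : ℕ) + 1))) *
      (-1) ^ ((i : ℕ) + (j : ℕ)) = 1 := by
    have : ((-1 : ℝ)) ^ ((n - ((j : ℕ) + 1)) + (n - ((i : ℕ) + 1)) + ((i : ℕ) + (j : ℕ) + 2)) = 1 := by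
      rw [e, pow_mul]; simp
    rw [pow_add, pow_add _ ((i : ℕ) + (j : ℕ)) 2] at this
    simpa using this
  have e3 : ((-1 : ℝ)) ^ ((i : ℕ) + (j : ℕ)) * (-1) ^ ((i : ℕ) + (j : ℕ)) = 1 := by
    rw [← mul_pow]; simp
  calc ((-1 : ℝ)) ^ ((n - ((j : ℕ) + 1)) + (n - ((i : ℕ) + 1)))
      = ((-1 : ℝ)) ^ ((n - ((j : ℕ) + 1)) + (n - ((i : ℕ) + 1))) *
        ((-1 : ℝ) ^ ((i : ℕ) + (j : ℕ)) * (-1) ^ ((i : ℕ) + (j : ℕ))) := by rw [e3, mul_one]
    _ = _ := by rw [← mul_assoc, e2, one_mul]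

/-- the substitution -/
def eF {n : ℕ} (w : LIdx n → ℝ) : LIdx n → ℝ := fun p => sg p * w (sw p)

theorem eF_eF {n : ℕ} (w : LIdx n → ℝ) : eF (eF w) = w := by
  funext p
  simp only [eF, sg_sw, sw_sw]
  rw [← mul_assoc, sg_sq, one_mul]

theorem eF_meas {n : ℕ} : Measurable (eF : (LIdx n → ℝ) → (LIdx n → ℝ)) := by
  unfold eF
  fun_prop

/-- as a measurable equivalence -/
def eM (n : ℕ) : (LIdx n → ℝ) ≃ᵐ (LIdx n → ℝ) where
  toFun := eF
  invFun := eF
  left_inv := eF_eF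
  right_inv := eF_eF
  measurable_toFun := eF_meas
  measurable_invFun := eF_meas

theorem sg_cases {n : ℕ} (p : LIdx n) : sg p = 1 ∨ sg p = -1 := by
  have := sg_sq p
  have h : (sg p - 1) * (sg p + 1) = 0 := by ring_nf; rw [pow_two, this]; ring
  rcases mul_eq_zero.mp h with h | h
  · left; linarith
  · right; linarith

theorem eM_mp (n : ℕ) : MeasurePreserving (eM n) volume volume := by
  have h1 : MeasurePreserving (fun (a : LIdx n → ℝ) (i : LIdx n) => sg i * a i) volume volume := by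
    apply volume_preserving_pi (f := fun (i : LIdx n) (x : ℝ) => sg i * x)
    intro i
    rcases sg_cases i with h | h
    · simp only [h, one_mul]; exact MeasurePreserving.id _
    · simp only [h, neg_one_mul]; exact Measure.measurePreserving_neg _
  have h2 : MeasurePreserving (MeasurableEquiv.piCongrLeft (fun _ : LIdx n => ℝ) (swE n))
      volume volume := volume_measurePreserving_piCongrLeft (fun _ : LIdx n => ℝ) (swE n)
  have h3 := h1.comp h2
  have h4 : (fun (a : LIdx n → ℝ) (i : LIdx n) => sg i * a i) ∘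
      (MeasurableEquiv.piCongrLeft (fun _ : LIdx n => ℝ) (swE n)) = eM n := by
    funext w p
    show sg p * (MeasurableEquiv.piCongrLeft (fun _ : LIdx n => ℝ) (swE n) w) p = sg p * w (sw p)
    congr 1
    have : p = swE n (sw p) := (sw_sw p).symm
    conv_lhs => rw [this]
    rw [MeasurableEquiv.coe_piCongrLeft, Equiv.piCongrLeft_apply_apply]
  rw [← h4]
  exact h3

/-- the diagonal matrix of signs -/
def Sd (n : ℕ) : Matrix (Fin n) (Fin n) ℝ := Matrix.diagonal (fun i => (-1) ^ (i : ℕ))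

theorem sq1 (k : ℕ) : ((-1 : ℝ) ^ k) * (-1) ^ k = 1 := by rw [← mul_pow]; simp

theorem lM_eF {n : ℕ} (w : LIdx n → ℝ) (i j : Fin n) :
    lM (eF w) i j = (-1) ^ (i : ℕ) * (-1) ^ (j : ℕ) * lM w (Fin.rev j) (Fin.rev i) := by
  unfold lM
  by_cases h : j < i
  · have h' : Fin.rev i < Fin.rev j := Fin.rev_lt_rev.mpr h
    rw [dif_pos h, dif_pos h']
    rfl
  · have h' : ¬ Fin.rev i < Fin.rev j := fun h2 => h (Fin.rev_lt_rev.mp h2)
    rw [dif_neg h, dif_neg h']
    by_cases h3 : i = j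
    · subst h3
      simp [sq1]
    · have h4 : ¬ Fin.rev j = Fin.rev i := fun h5 => h3 (Fin.rev_injective h5).symm
      rw [if_neg h3, if_neg h4]
      simp

/-- the matrix after reversal -/
theorem flip_mat {n : ℕ} (t : Fin n → ℝ) (ht : ∀ i, 0 < t i) (w : LIdx n → ℝ) (i j : Fin n) :
    (lM (eF w) * Dg (fun i => Real.log (t (Fin.rev i))) * (lM (eF w)).transpose) i j =
      (-1) ^ (i : ℕ) * (-1) ^ (j : ℕ) * ML (t, w) (Fin.rev i) (Fin.rev j) := by
  unfold ML Dg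
  rw [Matrix.mul_apply, Matrix.mul_apply, Finset.mul_sum]
  simp only [Matrix.mul_diagonal, Matrix.transpose_apply]
  rw [← Equiv.sum_comp (Fin.revPerm (n := n))]
  apply Finset.sum_congr rfl
  intro k _
  simp only [Fin.revPerm_apply, Fin.rev_rev, lM_eF]
  have h1 : Real.exp (2 * Real.log (t k)) = t k ^ 2 := by
    rw [two_mul, Real.exp_add, Real.exp_log (ht k)]; ring
  rw [h1]
  have h2 : ((-1 : ℝ) ^ ((Fin.rev k : Fin n) : ℕ)) * (-1) ^ ((Fin.rev k : Fin n) : ℕ) = 1 := sq1 _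
  calc _ = (((-1 : ℝ) ^ ((Fin.rev k : Fin n) : ℕ)) * (-1) ^ ((Fin.rev k : Fin n) : ℕ)) *
      ((-1) ^ (i : ℕ) * (-1) ^ (j : ℕ) * (lM w k (Fin.rev i) * t k ^ 2 * lM w k (Fin.rev j))) := by
        ring
    _ = _ := by rw [h2, one_mul]

/-- the minors -/
theorem flip_minor {n : ℕ} (t : Fin n → ℝ) (ht : ∀ i, 0 < t i) (w : LIdx n → ℝ) (k : Fin n) :
    Bm (lM (eF w) * Dg (fun i => Real.log (t (Fin.rev i))) * (lM (eF w)).transpose) k =
      Um (ML (t, w)) (Fin.rev k) := by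
  unfold Bm Um
  set A := lM (eF w) * Dg (fun i => Real.log (t (Fin.rev i))) * (lM (eF w)).transpose with hA
  set B := ML (t, w) with hB
  -- the equivalence
  let e : {i : Fin n // k ≤ i} ≃ {i : Fin n // i ≤ Fin.rev k} :=
    { toFun := fun i => ⟨Fin.rev i.1, Fin.rev_le_rev.mpr i.2⟩
      invFun := fun i => ⟨Fin.rev i.1, by
        have := Fin.rev_le_rev.mpr i.2
        rwa [Fin.rev_rev] at this⟩
      left_inv := fun i => by apply Subtype.ext; simp
      right_inv := fun i => by apply Subtype.ext; simp }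
  have h1 : A.submatrix (Subtype.val : {i : Fin n // k ≤ i} → Fin n)
      (Subtype.val : {i : Fin n // k ≤ i} → Fin n) =
      Matrix.diagonal (fun i : {i : Fin n // k ≤ i} => (-1 : ℝ) ^ (i.1 : ℕ)) *
        ((B.submatrix (Subtype.val : {i : Fin n // i ≤ Fin.rev k} → Fin n)
          (Subtype.val : {i : Fin n // i ≤ Fin.rev k} → Fin n)).submatrix e e) *
        Matrix.diagonal (fun i : {i : Fin n // k ≤ i} => (-1 : ℝ) ^ (i.1 : ℕ)) := by
    ext i j
    rw [Matrix.mul_diagonal, Matrix.diagonal_mul]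
    show A i.1 j.1 = (-1) ^ (i.1 : ℕ) * B (Fin.rev i.1) (Fin.rev j.1) * (-1) ^ (j.1 : ℕ)
    rw [hA, flip_mat t ht]
    ring
  rw [h1, Matrix.det_mul, Matrix.det_mul, Matrix.det_submatrix_equiv_self, Matrix.det_diagonal]
  have h2 : (∏ i : {i : Fin n // k ≤ i}, (-1 : ℝ) ^ (i.1 : ℕ)) *
      (∏ i : {i : Fin n // k ≤ i}, (-1 : ℝ) ^ (i.1 : ℕ)) = 1 := by
    rw [← Finset.prod_mul_distrib]
    apply Finset.prod_eq_one
    intro i _
    exact sq1 _
  linear_combination ((B.submatrix (Subtype.val : {i : Fin n // i ≤ Fin.rev k} → Fin n)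
          (Subtype.val : {i : Fin n // i ≤ Fin.rev k} → Fin n)).det) * h2

/-- the character -/
theorem flip_ch {n : ℕ} (w : LIdx n → ℝ) : ch (eF w) = (starRingEnd ℂ) (ch w) := by
  unfold ch
  rw [← Complex.exp_conj]
  congr 1
  rw [map_mul, Complex.conj_ofReal]
  have h1 : (starRingEnd ℂ) (-(2 * Real.pi * Complex.I)) = 2 * Real.pi * Complex.I := by
    simp only [map_neg, map_mul, Complex.conj_ofReal, Complex.conj_I, map_ofNat]
    ring
  rw [h1]
  have h2 : (∑ p : LIdx n, if (p.1.1 : ℕ) = (p.1.2 : ℕ) + 1 then eF w p else 0) =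
      - ∑ p : LIdx n, if (p.1.1 : ℕ) = (p.1.2 : ℕ) + 1 then w p else 0 := by
    rw [← Equiv.sum_comp (swE n) (fun p => if (p.1.1 : ℕ) = (p.1.2 : ℕ) + 1 then w p else 0),
      ← Finset.sum_neg_distrib]
    apply Finset.sum_congr rfl
    intro p _
    obtain ⟨⟨i, j⟩, h⟩ := p
    have h' : (j : ℕ) < (i : ℕ) := h
    have hi := i.2
    have hiff : (((swE n ⟨(i, j), h⟩ : LIdx n).1.1 : Fin n) : ℕ) =
        (((swE n ⟨(i, j), h⟩ : LIdx n).1.2 : Fin n) : ℕ) + 1 ↔ (i : ℕ) = (j : ℕ) + 1 := by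
      show ((Fin.rev j : Fin n) : ℕ) = ((Fin.rev i : Fin n) : ℕ) + 1 ↔ _
      rw [Fin.val_rev, Fin.val_rev]
      omega
    by_cases hc : (i : ℕ) = (j : ℕ) + 1
    · rw [if_pos hc, if_pos (hiff.mpr hc)]
      show sg _ * w (sw _) = - w (sw _)
      have : sg (⟨(i, j), h⟩ : LIdx n) = -1 := by
        unfold sg
        show (-1 : ℝ) ^ (i : ℕ) * (-1) ^ (j : ℕ) = -1
        rw [hc, pow_succ]
        have := sq1 (j : ℕ)
        calc _ = - ((-1 : ℝ) ^ (j : ℕ) * (-1) ^ (j : ℕ)) := by ring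
          _ = -1 := by rw [this]
      rw [this]; ring
    · rw [if_neg hc, if_neg (fun h2 => hc (hiff.mp h2))]
      simp
  rw [h2]
  push_cast
  ring

/-- the determinant -/
theorem um_last {m : ℕ} (t : Fin (m + 1) → ℝ) (w : LIdx (m + 1) → ℝ) :
    Um (ML (t, w)) (Fin.last m) = ∏ i, t i ^ 2 := by
  unfold Um
  let e : {i : Fin (m + 1) // i ≤ Fin.last m} ≃ Fin (m + 1) :=
    { toFun := Subtype.val
      invFun := fun i => ⟨i, Fin.le_last i⟩
      left_inv := fun i => rfl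
      right_inv := fun i => rfl }
  have h1 : (ML (t, w)).submatrix (Subtype.val : {i : Fin (m + 1) // i ≤ Fin.last m} → Fin (m + 1))
      (Subtype.val : {i : Fin (m + 1) // i ≤ Fin.last m} → Fin (m + 1)) =
      (ML (t, w)).submatrix e e := rfl
  rw [h1, Matrix.det_submatrix_equiv_self]
  unfold ML
  rw [Matrix.det_mul, Matrix.det_mul, Matrix.det_transpose, Matrix.det_diagonal]
  have h2 : (lM w).det = 1 := by
    rw [Matrix.det_of_isLowerTriangular]
    · apply Finset.prod_eq_one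
      intro i _
      simp [lM]
    · intro i j hij
      have hij' : i < j := hij
      unfold lM
      rw [dif_neg (not_lt.mpr hij'.le), if_neg hij'.ne]
  rw [h2]
  ring

/-- pointwise identity -/
theorem pt {m : ℕ} (μ : Fin (m + 1) → ℂ) (t : Fin (m + 1) → ℝ) (ht : ∀ i, 0 < t i)
    (w : LIdx (m + 1) → ℝ) :
    (∏ j, ((Um (ML (t, w)) j : ℝ) : ℂ) ^ (be μ j)) * (starRingEnd ℂ) (ch w) =
      (∏ i, ((t i : ℝ) : ℂ) ^ (∑ k, μ k - ((m + 1 : ℕ) : ℂ))) *
        JnI (tl μ) (fun i => Real.log (t (Fin.rev i))) (eF w) := by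
  unfold JnI
  rw [flip_ch, Fin.prod_univ_castSucc]
  have h1 : ((Um (ML (t, w)) (Fin.last m) : ℝ) : ℂ) ^ (be μ (Fin.last m)) =
      ∏ i, ((t i : ℝ) : ℂ) ^ (∑ k, μ k - ((m + 1 : ℕ) : ℂ)) := by
    rw [um_last]
    have hbe : be μ (Fin.last m) = (∑ k, μ k - ((m + 1 : ℕ) : ℂ)) / 2 := by
      unfold be
      rw [dif_neg (by simp)]
    rw [hbe]
    set z : ℂ := ∑ k, μ k - ((m + 1 : ℕ) : ℂ) with hz
    have h2 : ∀ (x : ℝ), 0 < x → (((x ^ 2 : ℝ)) : ℂ) ^ (z / 2) = ((x : ℝ) : ℂ) ^ z := by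
      intro x hx
      have hx2 : (0 : ℝ) < x ^ 2 := by positivity
      rw [Complex.cpow_def_of_ne_zero (by exact_mod_cast hx2.ne'),
        Complex.cpow_def_of_ne_zero (by exact_mod_cast hx.ne'),
        ← Complex.ofReal_log hx2.le, ← Complex.ofReal_log hx.le, Real.log_pow]
      congr 1
      push_cast
      ring
    have h3 : ∀ (s : Finset (Fin (m + 1))), ((∏ i ∈ s, t i ^ 2 : ℝ) : ℂ) ^ (z / 2) =
        ∏ i ∈ s, ((t i : ℝ) : ℂ) ^ z := by
      intro s
      induction s using Finset.induction_on with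
      | empty => simp
      | insert a s ha ih =>
        rw [Finset.prod_insert ha, Finset.prod_insert ha, ← ih, ← h2 (t a) (ht a)]
        rw [Complex.ofReal_mul, Complex.mul_cpow_ofReal_nonneg]
        · have := ht a
          positivity
        · exact Finset.prod_nonneg fun i _ => by positivity
    exact h3 _
  have h4 : ∏ i : Fin m, ((Um (ML (t, w)) i.castSucc : ℝ) : ℂ) ^ (be μ i.castSucc) =
      ∏ k : Fin m, ((Bm (lM (eF w) * Dg (fun i => Real.log (t (Fin.rev i))) *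
        (lM (eF w)).transpose) k.succ : ℝ) : ℂ) ^ (-(tl μ k) / 2) := by
    rw [← Equiv.prod_comp (Fin.revPerm (n := m))]
    apply Finset.prod_congr rfl
    intro k _
    rw [flip_minor t ht, Fin.rev_succ, Fin.revPerm_apply]
    congr 1
    unfold be tl
    have hlt : ((Fin.rev k).castSucc : ℕ) + 1 < m + 1 := by
      have := (Fin.rev k).2
      simp only [Fin.val_castSucc]
      omega
    rw [dif_pos hlt]
    rfl
  rw [h1, h4]
  ring

theorem norm_ch {n : ℕ} (w : LIdx n → ℝ) : ‖ch w‖ = 1 := by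
  unfold ch
  rw [Complex.norm_exp]
  simp

theorem t_flip : S_FLIP := by
  intro m μ t ht
  have hmp := eM_mp (m + 1)
  refine ⟨?_, ?_, ?_⟩
  · intro hJ
    have h1 : Integrable (fun w => JnI (tl μ) (fun i => Real.log (t (Fin.rev i))) (eM (m + 1) w)) :=
      hmp.integrable_comp_of_integrable hJ
    have h2 := h1.const_mul (∏ i, ((t i : ℝ) : ℂ) ^ (∑ k, μ k - ((m + 1 : ℕ) : ℂ)))
    exact h2.congr (Filter.Eventually.of_forall fun w => (pt μ t ht w).symm)
  · have h1 : ∀ w : LIdx (m + 1) → ℝ,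
        (∏ j, ((Um (ML (t, w)) j : ℝ) : ℂ) ^ (be μ j)) * (starRingEnd ℂ) (ch w) =
        (∏ i, ((t i : ℝ) : ℂ) ^ (∑ k, μ k - ((m + 1 : ℕ) : ℂ))) *
        JnI (tl μ) (fun i => Real.log (t (Fin.rev i))) (eM (m + 1) w) := fun w => pt μ t ht w
    simp only [h1]
    rw [integral_const_mul]
    congr 1
    exact hmp.integral_comp' (g := JnI (tl μ) (fun i => Real.log (t (Fin.rev i))))
  · have h1 : ∀ w : LIdx (m + 1) → ℝ,
        ‖∏ j, ((Um (ML (t, w)) j : ℝ) : ℂ) ^ (be μ j)‖ =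
        (∏ i, (t i) ^ ((∑ k, μ k).re - (m + 1))) *
        ‖JnI (tl μ) (fun i => Real.log (t (Fin.rev i))) (eM (m + 1) w)‖ := by
      intro w
      have h2 := congrArg norm (pt μ t ht w)
      rw [norm_mul, norm_mul, RCLike.norm_conj, norm_ch, mul_one] at h2
      rw [h2]
      congr 1
      rw [norm_prod]
      apply Finset.prod_congr rfl
      intro i _
      rw [Complex.norm_cpow_eq_rpow_re_of_pos (ht i)]
      congr 1
      simp
    simp only [h1]
    rw [integral_const_mul]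
    congr 1
    exact hmp.integral_comp' (g := fun v => ‖JnI (tl μ) (fun i => Real.log (t (Fin.rev i))) v‖)

end

end Pool.Agent.W573.WH.Flip
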