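import Pool.Agent.W181.WH.Stm

/-!
# WH-HOL: the Givental functions are entire in the parameters
-/

open MeasureTheory Filter Topology

namespace Pool.Agent.W573.WH.Hol

open Pool.Agent.W181.WH

noncomputable section

/-- the majorant `exp (b ∑ |t|)` -/
def HH {n : ℕ} (C b : ℝ) (t : Fin n → ℝ) : ℂ := ((C * Real.exp (b * ∑ i, |t i|) : ℝ) : ℂ)

theorem HH_cont {n : ℕ} (C b : ℝ) : Continuous (HH C b : (Fin n → ℝ) → ℂ) := by
  unfold HH
  fun_prop

theorem HH_exp {n : ℕ} (C b : ℝ) (hC : 0 ≤ C) : ExpGr (HH C b : (Fin n → ℝ) → ℂ) := by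
  refine ⟨C, b, fun x => ?_⟩
  unfold HH
  rw [Complex.norm_real, Real.norm_eq_abs, abs_of_nonneg (by positivity)]

/-- the kernel with parameter zero, as a real number -/
def Q0 {n : ℕ} (x : Fin (n + 1) → ℝ) (t : Fin n → ℝ) : ℝ :=
  Real.exp (-Real.pi * ∑ k : Fin n,
      (Real.exp (2 * (x k.succ - t k)) + Real.exp (2 * (t k - x k.castSucc))))

theorem norm_Qk {n : ℕ} (a : ℂ) (x : Fin (n + 1) → ℝ) (t : Fin n → ℝ) :
    ‖Qk a x t‖ = Real.exp (a.re * (∑ i, x i - ∑ i, t i)) * Q0 x t := by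
  unfold Qk Q0
  rw [norm_mul, Complex.norm_exp, Complex.norm_real, Real.norm_eq_abs, Real.abs_exp]
  congr 2
  rw [Complex.re_mul_ofReal]

theorem Qk_le {n : ℕ} (a : ℂ) (r : ℝ) (ha : ‖a‖ ≤ r) (x : Fin (n + 1) → ℝ) (t : Fin n → ℝ) :
    ‖Qk a x t‖ ≤ Real.exp (r * ∑ i, |x i|) * Real.exp (r * ∑ i, |t i|) * Q0 x t := by
  rw [norm_Qk, ← Real.exp_add]
  apply mul_le_mul_of_nonneg_right _ (by unfold Q0; positivity)
  apply Real.exp_le_exp.mpr
  have h1 : |∑ i, x i| ≤ ∑ i, |x i| := Finset.abs_sum_le_sum_abs _ _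
  have h2 : |∑ i, t i| ≤ ∑ i, |t i| := Finset.abs_sum_le_sum_abs _ _
  have h3 : |a.re| ≤ r := (Complex.abs_re_le_norm a).trans ha
  calc a.re * (∑ i, x i - ∑ i, t i) ≤ |a.re * (∑ i, x i - ∑ i, t i)| := le_abs_self _
    _ = |a.re| * |∑ i, x i - ∑ i, t i| := abs_mul _ _
    _ ≤ r * (∑ i, |x i| + ∑ i, |t i|) := by
        apply mul_le_mul h3 _ (abs_nonneg _) ((abs_nonneg _).trans h3)
        exact (abs_sub _ _).trans (add_le_add h1 h2)
    _ = _ := by ring

theorem Qk_zero {n : ℕ} (x : Fin (n + 1) → ℝ) (t : Fin n → ℝ) : Qk (2 * 0) x t = ((Q0 x t : ℝ) : ℂ) := by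
  unfold Qk Q0
  simp

theorem Qk_cont {n : ℕ} (a : ℂ) (x : Fin (n + 1) → ℝ) : Continuous (fun t => Qk a x t) := by
  unfold Qk
  fun_prop

theorem norm_tl {n : ℕ} (α : Fin (n + 1) → ℂ) : ‖tl α‖ ≤ ‖α‖ := by
  rw [pi_norm_le_iff_of_nonneg (norm_nonneg _)]
  intro i
  exact norm_le_pi_norm α _

theorem diff_tl {n : ℕ} : Differentiable ℂ (fun α : Fin (n + 1) → ℂ => tl α) := by
  unfold tl
  rw [differentiable_pi]
  intro i
  exact differentiable_apply _

/-- all the induction statements -/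
theorem all (hI : S_HOLI) (hD : S_KKD) (hK : S_KKI) : ∀ n : ℕ,
    (∀ r : ℝ, ∃ C b : ℝ, 0 ≤ C ∧ ∀ α : Fin n → ℂ, ‖α‖ ≤ r → ∀ x, ‖Psi n α x‖ ≤
      C * Real.exp (b * ∑ i, |x i|)) ∧
    (∀ x : Fin n → ℝ, Differentiable ℂ (fun α => Psi n α x)) ∧
    (∀ α : Fin n → ℂ, Continuous (Psi n α)) := by
  intro n
  induction n with
  | zero =>
    refine ⟨fun r => ⟨1, 0, zero_le_one, fun α _ x => ?_⟩, fun x => ?_, fun α => ?_⟩
    · simp [Psi]
    · exact differentiable_const _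
    · exact continuous_const
  | succ n ih =>
    obtain ⟨iha, ihb, ihc⟩ := ih
    -- the pointwise bound
    have pt : ∀ r : ℝ, ∀ C b : ℝ, 0 ≤ C → (∀ α : Fin n → ℂ, ‖α‖ ≤ r → ∀ x, ‖Psi n α x‖ ≤
        C * Real.exp (b * ∑ i, |x i|)) → ∀ (α : Fin (n + 1) → ℂ), ‖α‖ ≤ r →
        ∀ (x : Fin (n + 1) → ℝ) (t : Fin n → ℝ), ‖Qk (α 0) x t * Psi n (tl α) t‖ ≤
        Real.exp (r * ∑ i, |x i|) * (Q0 x t * (C * Real.exp ((r + b) * ∑ i, |t i|))) := by
      intro r C b hC hb α hα x t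
      rw [norm_mul]
      have h1 := Qk_le (α 0) r ((norm_le_pi_norm α 0).trans hα) x t
      have h2 := hb (tl α) ((norm_tl α).trans hα) t
      have hQ : 0 ≤ Q0 x t := by unfold Q0; positivity
      calc ‖Qk (α 0) x t‖ * ‖Psi n (tl α) t‖
          ≤ (Real.exp (r * ∑ i, |x i|) * Real.exp (r * ∑ i, |t i|) * Q0 x t) *
            (C * Real.exp (b * ∑ i, |t i|)) := by
            apply mul_le_mul h1 h2 (norm_nonneg _) (by positivity)
        _ = _ := by
            rw [add_mul, Real.exp_add]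
            ring
    -- integrability of the majorant and the growth of its integral
    have maj : ∀ C b : ℝ, 0 ≤ C → (∀ x : Fin (n + 1) → ℝ,
        Integrable (fun t : Fin n → ℝ => Q0 x t * (C * Real.exp (b * ∑ i, |t i|)))) ∧
        ∃ C' b' : ℝ, 0 ≤ C' ∧ ∀ x : Fin (n + 1) → ℝ,
        ∫ t : Fin n → ℝ, Q0 x t * (C * Real.exp (b * ∑ i, |t i|)) ≤
          C' * Real.exp (b' * ∑ i, |x i|) := by
      intro C b hC
      obtain ⟨h1, C', b', h2⟩ := hK n 0 (HH C b) 1 (HH_cont C b) (HH_exp C b hC)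
      have e1 : ∀ (x : Fin (n + 1) → ℝ) (t : Fin n → ℝ),
          MvPolynomial.eval (rs x t) 1 * Qk (2 * 0) x t * HH C b t =
            ((Q0 x t * (C * Real.exp (b * ∑ i, |t i|)) : ℝ) : ℂ) := by
        intro x t
        rw [Qk_zero, map_one, one_mul]
        unfold HH
        push_cast
        ring
      refine ⟨fun x => ?_, |C'|, b', abs_nonneg _, fun x => ?_⟩
      · have h3 := h1 x
        simp only [e1] at h3
        exact h3.re.congr (Filter.Eventually.of_forall fun t => Complex.ofReal_re _)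
      · have h3 := h2 x
        unfold KK at h3
        simp only [e1] at h3
        have h4 : ∫ t : Fin n → ℝ, ((Q0 x t * (C * Real.exp (b * ∑ i, |t i|)) : ℝ) : ℂ) =
            ((∫ t : Fin n → ℝ, Q0 x t * (C * Real.exp (b * ∑ i, |t i|)) : ℝ) : ℂ) :=
          integral_ofReal
        rw [h4, Complex.norm_real, Real.norm_eq_abs] at h3
        exact (le_abs_self _).trans (h3.trans (mul_le_mul_of_nonneg_right (le_abs_self _)
          (Real.exp_pos _).le))
    refine ⟨?_, ?_, ?_⟩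
    · intro r
      obtain ⟨C, b, hC, hb⟩ := iha r
      obtain ⟨hi, C', b', hC', hb'⟩ := maj C (r + b) hC
      refine ⟨C', r + b', hC', fun α hα x => ?_⟩
      have h1 : ‖Psi (n + 1) α x‖ ≤ ∫ t : Fin n → ℝ,
          Real.exp (r * ∑ i, |x i|) * (Q0 x t * (C * Real.exp ((r + b) * ∑ i, |t i|))) := by
        show ‖∫ t : Fin n → ℝ, Qk (α 0) x t * Psi n (tl α) t‖ ≤ _
        apply norm_integral_le_of_norm_le ((hi x).const_mul _)
        exact Filter.Eventually.of_forall fun t => pt r C b hC hb α hα x t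
      rw [integral_const_mul] at h1
      calc ‖Psi (n + 1) α x‖ ≤ _ := h1
        _ ≤ Real.exp (r * ∑ i, |x i|) * (C' * Real.exp (b' * ∑ i, |x i|)) :=
            mul_le_mul_of_nonneg_left (hb' x) (Real.exp_pos _).le
        _ = _ := by
            rw [add_mul, Real.exp_add]; ring
    · intro x
      have h := hI (n + 1) n (fun α t => Qk (α 0) x t * Psi n (tl α) t) ?_ ?_ ?_
      · exact h
      · intro t
        have h1 : Differentiable ℂ (fun α : Fin (n + 1) → ℂ => Qk (α 0) x t) := by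
          unfold Qk
          have : Differentiable ℂ (fun α : Fin (n + 1) → ℂ => α 0) := differentiable_apply _
          exact ((this.mul_const _).cexp).mul_const _
        exact h1.mul ((ihb t).comp diff_tl)
      · intro α
        exact (Qk_cont (α 0) x).mul (ihc (tl α))
      · intro r
        obtain ⟨C, b, hC, hb⟩ := iha r
        obtain ⟨hi, -⟩ := maj C (r + b) hC
        exact ⟨_, (hi x).const_mul _, fun α t hα => pt r C b hC hb α hα x t⟩
    · intro α
      obtain ⟨C, b, hC, hb⟩ := iha ‖tl α‖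
      have h1 := (hD n (α 0 / 2) (Psi n (tl α)) (ihc _) ⟨C, b, fun x => hb (tl α) le_rfl x⟩ 1).1.1
      have h2 : KK (α 0 / 2) (Psi n (tl α)) 1 = Psi (n + 1) α := by
        funext x
        show ∫ t : Fin n → ℝ, MvPolynomial.eval (rs x t) 1 * Qk (2 * (α 0 / 2)) x t *
          Psi n (tl α) t = ∫ t : Fin n → ℝ, Qk (α 0) x t * Psi n (tl α) t
        have h3 : 2 * (α 0 / 2) = α 0 := by ring
        simp only [map_one, one_mul, h3]
      rw [← h2]
      exact h1.continuous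

theorem t_hol : S_HOLI → S_KKD → S_KKI → S_HOL :=
  fun hI hD hK n => (all hI hD hK n).2.1

end

end Pool.Agent.W573.WH.Hol
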