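import Pool.Agent.W181.WH.Stm

/-!
# WH-MEL: passing to the Mellin transform
-/

open MeasureTheory Filter Topology

namespace Pool.Agent.W573.WH.Mel

open Pool.Agent.W181.WH

noncomputable section

/-- the exponential -/
def EE {N : ℕ} (s : Fin N → ℂ) (ξ : Fin N → ℝ) : ℂ := Complex.exp (2 * ∑ j, s j * (ξ j : ℂ))

theorem contDiff_EE {N : ℕ} (s : Fin N → ℂ) : ContDiff ℝ (⊤ : ℕ∞) (EE s) := by
  unfold EE
  have h : ∀ j : Fin N, ContDiff ℝ (⊤ : ℕ∞) (fun ξ : Fin N → ℝ => ((ξ j : ℝ) : ℂ)) := fun j =>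
    Complex.ofRealCLM.contDiff.comp (contDiff_apply ℝ ℝ j)
  exact (contDiff_const.mul (ContDiff.sum fun j _ => contDiff_const.mul (h j))).cexp

theorem fderiv_EE {N : ℕ} (s : Fin N → ℂ) (k : Fin N) (ξ : Fin N → ℝ) :
    fderiv ℝ (EE s) ξ (Pi.single k 1) = 2 * s k * EE s ξ := by
  have h : ∀ j : Fin N, HasFDerivAt (fun ξ : Fin N → ℝ => ((ξ j : ℝ) : ℂ))
      (Complex.ofRealCLM.comp (ContinuousLinearMap.proj (R := ℝ) (φ := fun _ : Fin N => ℝ) j)) ξ :=
    fun j => (Complex.ofRealCLM.comp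
      (ContinuousLinearMap.proj (R := ℝ) (φ := fun _ : Fin N => ℝ) j)).hasFDerivAt
  have h2 : HasFDerivAt (fun ξ : Fin N → ℝ => 2 * ∑ j, s j * (ξ j : ℂ))
      ((2 : ℂ) • ∑ j, s j • (Complex.ofRealCLM.comp
        (ContinuousLinearMap.proj (R := ℝ) (φ := fun _ : Fin N => ℝ) j))) ξ := by
    have h3 : HasFDerivAt (fun ξ : Fin N → ℝ => ∑ j, s j * (ξ j : ℂ))
      (∑ j, s j • (Complex.ofRealCLM.comp
        (ContinuousLinearMap.proj (R := ℝ) (φ := fun _ : Fin N => ℝ) j))) ξ := by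
      have := HasFDerivAt.fun_sum (u := Finset.univ) (fun j _ => (h j).const_mul (s j))
      exact this
    exact h3.const_mul 2
  have h4 := h2.cexp
  have h5 : fderiv ℝ (EE s) ξ = _ := h4.fderiv
  rw [h5]
  have h6 : ∑ x, s x * (((Pi.single k (1 : ℝ) : Fin N → ℝ) x : ℝ) : ℂ) = s k := by
    rw [Finset.sum_eq_single k]
    · simp
    · intro b _ hb
      simp [hb]
    · simp
  have h7 : (Complex.exp (2 * ∑ j, s j * ((ξ j : ℝ) : ℂ)) • (2 : ℂ) • ∑ j, s j •
      (Complex.ofRealCLM.comp (ContinuousLinearMap.proj (R := ℝ) (φ := fun _ : Fin N => ℝ) j)))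
      (Pi.single k 1) = Complex.exp (2 * ∑ j, s j * ((ξ j : ℝ) : ℂ)) * (2 *
        ∑ x, s x * (((Pi.single k (1 : ℝ) : Fin N → ℝ) x : ℝ) : ℂ)) := by
    simp
  rw [h7, h6]
  unfold EE
  ring

/-- integration by parts against a smooth function with compact support -/
theorem ibp {N : ℕ} (k : Fin N) (H F : (Fin N → ℝ) → ℂ) (hH : ContDiff ℝ (⊤ : ℕ∞) H)
    (hF : ContDiff ℝ (⊤ : ℕ∞) F) (hc : HasCompactSupport F) :
    ∫ ξ, pd k H ξ * F ξ = - ∫ ξ, H ξ * pd k F ξ := by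
  have hpF : Continuous (pd k F) := (contDiff_pd k hF).continuous
  have hpH : Continuous (pd k H) := (contDiff_pd k hH).continuous
  have hcF : HasCompactSupport (pd k F) := by
    have := hc.fderiv_apply (𝕜 := ℝ) (Pi.single k (1 : ℝ))
    exact this
  have h1 : Integrable (fun ξ => H ξ * pd k F ξ) :=
    (hH.continuous.mul hpF).integrable_of_hasCompactSupport (hcF.mul_left (f := H))
  have h2 : Integrable (fun ξ => pd k H ξ * F ξ) :=
    (hpH.mul hF.continuous).integrable_of_hasCompactSupport (hc.mul_left (f := pd k H))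
  have h3 : Integrable (fun ξ => H ξ * F ξ) :=
    (hH.continuous.mul hF.continuous).integrable_of_hasCompactSupport (hc.mul_left (f := H))
  have h : ∫ ξ, F ξ * fderiv ℝ H ξ (Pi.single k 1) =
      - ∫ ξ, fderiv ℝ F ξ (Pi.single k 1) * H ξ := by
    apply integral_mul_fderiv_eq_neg_fderiv_mul_of_integrable
    · exact h1.congr (Filter.Eventually.of_forall (fun ξ => mul_comm _ _))
    · exact h2.congr (Filter.Eventually.of_forall (fun ξ => mul_comm _ _))
    · exact h3.congr (Filter.Eventually.of_forall (fun ξ => mul_comm _ _))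
    · exact fun x _ => (hF.differentiable (by simp)) x
    · exact fun x _ => (hH.differentiable (by simp)) x
  have e1 : ∫ ξ, pd k H ξ * F ξ = ∫ ξ, F ξ * fderiv ℝ H ξ (Pi.single k 1) := by
    apply integral_congr_ae
    exact Filter.Eventually.of_forall (fun ξ => mul_comm _ _)
  have e2 : ∫ ξ, H ξ * pd k F ξ = ∫ ξ, fderiv ℝ F ξ (Pi.single k 1) * H ξ := by
    apply integral_congr_ae
    exact Filter.Eventually.of_forall (fun ξ => mul_comm _ _)
  rw [e1, e2, h]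

/-- good families of cut-offs -/
structure Fam (N : ℕ) (c : ℂ) (G : ℝ × (Fin N → ℝ) → ℂ) : Prop where
  smooth : ContDiff ℝ (⊤ : ℕ∞) G
  supp : ∃ K : Set (Fin N → ℝ), IsCompact K ∧ ∀ e x, x ∉ K → G (e, x) = 0
  val : G (0, 0) = c

theorem Fam.slice {N : ℕ} {c : ℂ} {G : ℝ × (Fin N → ℝ) → ℂ} (h : Fam N c G) (e : ℝ) :
    ContDiff ℝ (⊤ : ℕ∞) (fun ξ : Fin N → ℝ => G (e, e • ξ)) :=
  h.smooth.comp (contDiff_const.prodMk (contDiff_id.const_smul e))

theorem Fam.cs {N : ℕ} {c : ℂ} {G : ℝ × (Fin N → ℝ) → ℂ} (h : Fam N c G) (e : ℝ) (he : 0 < e) :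
    HasCompactSupport (fun ξ : Fin N → ℝ => G (e, e • ξ)) := by
  obtain ⟨K, hK, h0⟩ := h.supp
  have hK' : IsCompact ((fun x : Fin N → ℝ => e⁻¹ • x) '' K) :=
    hK.image (continuous_const_smul _)
  apply HasCompactSupport.intro hK'
  intro ξ hξ
  apply h0
  intro hin
  apply hξ
  exact ⟨e • ξ, hin, by simp [smul_smul, inv_mul_cancel₀ he.ne']⟩

theorem Fam.bdd {N : ℕ} {c : ℂ} {G : ℝ × (Fin N → ℝ) → ℂ} (h : Fam N c G) :
    ∃ C : ℝ, ∀ e ∈ Set.Icc (0 : ℝ) 1, ∀ x, ‖G (e, x)‖ ≤ C := by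
  obtain ⟨K, hK, h0⟩ := h.supp
  obtain ⟨C, hC⟩ := (isCompact_Icc.prod hK).exists_bound_of_continuousOn
    (f := G) h.smooth.continuous.continuousOn
  refine ⟨max C 0, fun e he x => ?_⟩
  by_cases hx : x ∈ K
  · exact (hC (e, x) ⟨he, hx⟩).trans (le_max_left _ _)
  · rw [h0 e x hx]; simp

/-- partial derivative of a family -/
def dG {N : ℕ} (j : Fin N) (G : ℝ × (Fin N → ℝ) → ℂ) (z : ℝ × (Fin N → ℝ)) : ℂ :=
  fderiv ℝ G z (0, Pi.single j 1)

theorem Fam.step {N : ℕ} {c : ℂ} {G : ℝ × (Fin N → ℝ) → ℂ} (h : Fam N c G) (j : Fin N) (a : ℂ) :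
    Fam N (c * a) (fun z => (1 / 2 : ℂ) * ((z.1 : ℝ) : ℂ) * dG j G z + a * G z) := by
  refine ⟨?_, ?_, ?_⟩
  · have h1 : ContDiff ℝ (⊤ : ℕ∞) (dG j G) := by
      unfold dG
      exact (h.smooth.fderiv_right (m := (⊤ : ℕ∞)) (by simp)).clm_apply contDiff_const
    have h2 : ContDiff ℝ (⊤ : ℕ∞) (fun z : ℝ × (Fin N → ℝ) => ((z.1 : ℝ) : ℂ)) :=
      Complex.ofRealCLM.contDiff.comp contDiff_fst
    exact ((contDiff_const.mul h2).mul h1).add (contDiff_const.mul h.smooth)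
  · obtain ⟨K, hK, h0⟩ := h.supp
    refine ⟨K, hK, fun e x hx => ?_⟩
    have h1 : dG j G (e, x) = 0 := by
      unfold dG
      have hev : G =ᶠ[𝓝 (e, x)] fun _ => 0 := by
        have hopen : IsOpen ((Set.univ : Set ℝ) ×ˢ Kᶜ) := isOpen_univ.prod hK.isClosed.isOpen_compl
        filter_upwards [hopen.mem_nhds (show (e, x) ∈ (Set.univ : Set ℝ) ×ˢ Kᶜ from
          ⟨Set.mem_univ _, hx⟩)] with z hz
        exact h0 z.1 z.2 hz.2
      rw [hev.fderiv_eq]
      simp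
    simp [h1, h0 e x hx]
  · simp [h.val, mul_comm]

theorem pd_slice {N : ℕ} {G : ℝ × (Fin N → ℝ) → ℂ} (hG : ContDiff ℝ (⊤ : ℕ∞) G) (j : Fin N)
    (e : ℝ) (ξ : Fin N → ℝ) :
    fderiv ℝ (fun ξ : Fin N → ℝ => G (e, e • ξ)) ξ (Pi.single j 1) =
      (e : ℂ) * dG j G (e, e • ξ) := by
  have h1 : HasFDerivAt (fun ξ : Fin N → ℝ => ((e, e • ξ) : ℝ × (Fin N → ℝ)))
      ((0 : (Fin N → ℝ) →L[ℝ] ℝ).prod (e • ContinuousLinearMap.id ℝ (Fin N → ℝ))) ξ :=
    (hasFDerivAt_const e ξ).prodMk ((hasFDerivAt_id ξ).const_smul e)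
  have h2 : HasFDerivAt G (fderiv ℝ G (e, e • ξ)) (e, e • ξ) :=
    ((hG.differentiable (by simp)) _).hasFDerivAt
  have h3 := (h2.comp ξ h1).fderiv
  have h4 : fderiv ℝ (fun ξ : Fin N → ℝ => G (e, e • ξ)) ξ = _ := h3
  rw [h4]
  unfold dG
  simp only [ContinuousLinearMap.comp_apply, ContinuousLinearMap.prod_apply,
    ContinuousLinearMap.zero_apply, ContinuousLinearMap.smul_apply,
    ContinuousLinearMap.id_apply]
  have : ((0 : ℝ), e • (Pi.single j 1 : Fin N → ℝ)) = e • ((0 : ℝ), (Pi.single j 1 : Fin N → ℝ)) := by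
    simp
  rw [this, ContinuousLinearMap.map_smul]
  simp

theorem main_ind {N : ℕ} (R : Rep N (Module.End ℂ (Sm N))) (hR : IsRepXi N R) (s : Fin N → ℂ)
    (φ : (Fin N → ℝ) → ℂ) (hφ : ContDiff ℝ (⊤ : ℕ∞) φ) (hφc : HasCompactSupport φ)
    (hφ0 : φ 0 = 1) (P : MvPolynomial (Fin N) ℂ) :
    ∃ G : ℝ × (Fin N → ℝ) → ℂ, Fam N (MvPolynomial.eval s P) G ∧
      ∀ e : ℝ, 0 < e → ∀ H : Sm N,
        ∫ ξ, (R.θ P H).1 ξ * (φ (e • ξ) * EE s ξ) = ∫ ξ, H.1 ξ * (G (e, e • ξ) * EE s ξ) := by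
  have hφs : ∀ e : ℝ, ContDiff ℝ (⊤ : ℕ∞) (fun ξ : Fin N → ℝ => φ (e • ξ)) := fun e =>
    hφ.comp (contDiff_id.const_smul e)
  have hφcs : ∀ e : ℝ, 0 < e → HasCompactSupport (fun ξ : Fin N → ℝ => φ (e • ξ)) := fun e he =>
    hφc.comp_smul he.ne'
  have hint : ∀ e : ℝ, 0 < e → ∀ H : Sm N,
      Integrable (fun ξ => H.1 ξ * (φ (e • ξ) * EE s ξ)) := fun e he H =>
    ((show ContDiff ℝ (⊤ : ℕ∞) H.1 from H.2).continuous.mul
      ((hφs e).continuous.mul (contDiff_EE s).continuous)).integrable_of_hasCompactSupport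
      (((hφcs e he).mul_right (f' := EE s)).mul_left (f := H.1))
  have hintG : ∀ (c : ℂ) (G : ℝ × (Fin N → ℝ) → ℂ), Fam N c G → ∀ e : ℝ, 0 < e → ∀ H : Sm N,
      Integrable (fun ξ => H.1 ξ * (G (e, e • ξ) * EE s ξ)) := fun c G hG e he H =>
    ((show ContDiff ℝ (⊤ : ℕ∞) H.1 from H.2).continuous.mul
      ((hG.slice e).continuous.mul (contDiff_EE s).continuous)).integrable_of_hasCompactSupport
      (((hG.cs e he).mul_right (f' := EE s)).mul_left (f := H.1))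
  induction P using MvPolynomial.induction_on with
  | C a =>
    refine ⟨fun z => a * φ z.2, ⟨?_, ?_, ?_⟩, ?_⟩
    · exact contDiff_const.mul (hφ.comp contDiff_snd)
    · refine ⟨tsupport φ, hφc, fun e x hx => ?_⟩
      simp [image_eq_zero_of_notMem_tsupport hx]
    · simp [hφ0]
    · intro e he H
      apply integral_congr_ae
      refine Filter.Eventually.of_forall (fun ξ => ?_)
      have : R.θ (MvPolynomial.C a) H = a • H := by
        have h1 : (MvPolynomial.C a : MvPolynomial (Fin N) ℂ) =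
          algebraMap ℂ (MvPolynomial (Fin N) ℂ) a := rfl
        rw [h1, AlgHom.commutes]
        rfl
      show (R.θ (MvPolynomial.C a) H).1 ξ * (φ (e • ξ) * EE s ξ) =
        H.1 ξ * (a * φ (e • ξ) * EE s ξ)
      rw [this]
      show a * H.1 ξ * (φ (e • ξ) * EE s ξ) = _
      ring
  | add P Q hP hQ =>
    obtain ⟨G1, hG1, h1⟩ := hP
    obtain ⟨G2, hG2, h2⟩ := hQ
    refine ⟨fun z => G1 z + G2 z, ⟨hG1.smooth.add hG2.smooth, ?_, ?_⟩, ?_⟩
    · obtain ⟨K1, hK1, k1⟩ := hG1.supp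
      obtain ⟨K2, hK2, k2⟩ := hG2.supp
      refine ⟨K1 ∪ K2, hK1.union hK2, fun e x hx => ?_⟩
      simp only [Set.mem_union, not_or] at hx
      simp [k1 e x hx.1, k2 e x hx.2]
    · simp [hG1.val, hG2.val]
    · intro e he H
      have e1 : ∀ ξ, (R.θ (P + Q) H).1 ξ * (φ (e • ξ) * EE s ξ) =
          (R.θ P H).1 ξ * (φ (e • ξ) * EE s ξ) + (R.θ Q H).1 ξ * (φ (e • ξ) * EE s ξ) := by
        intro ξ
        have : R.θ (P + Q) H = R.θ P H + R.θ Q H := by
          rw [map_add]; rfl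
        rw [this]
        show ((R.θ P H).1 ξ + (R.θ Q H).1 ξ) * _ = _
        ring
      have e2 : ∀ ξ, H.1 ξ * ((G1 (e, e • ξ) + G2 (e, e • ξ)) * EE s ξ) =
          H.1 ξ * (G1 (e, e • ξ) * EE s ξ) + H.1 ξ * (G2 (e, e • ξ) * EE s ξ) := by
        intro ξ; ring
      simp only [e1, e2]
      rw [integral_add (hint e he _) (hint e he _),
        integral_add (hintG _ _ hG1 e he _) (hintG _ _ hG2 e he _), h1 e he, h2 e he]
  | mul_X P j hP =>
    obtain ⟨G, hG, h⟩ := hP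
    refine ⟨fun z => (1 / 2 : ℂ) * ((z.1 : ℝ) : ℂ) * dG j G z + s j * G z, ?_, ?_⟩
    · have := hG.step j (s j)
      simpa using this
    · intro e he H
      have h1 : R.θ (P * MvPolynomial.X j) H = R.θ P (R.θ (MvPolynomial.X j) H) := by
        rw [map_mul]; rfl
      rw [h1, h e he]
      have h2 : ∀ ξ, (R.θ (MvPolynomial.X j) H).1 ξ = (-(1 / 2) : ℂ) * pd j H.1 ξ := by
        intro ξ
        rw [hR.1 j]
        rfl
      have hsm : ContDiff ℝ (⊤ : ℕ∞) (fun ξ => G (e, e • ξ) * EE s ξ) :=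
        (hG.slice e).mul (contDiff_EE s)
      have hcs : HasCompactSupport (fun ξ => G (e, e • ξ) * EE s ξ) :=
        (hG.cs e he).mul_right (f' := EE s)
      have h3 := ibp j H.1 (fun ξ => G (e, e • ξ) * EE s ξ) H.2 hsm hcs
      have h4 : ∀ ξ, pd j (fun ξ => G (e, e • ξ) * EE s ξ) ξ =
          (e : ℂ) * dG j G (e, e • ξ) * EE s ξ + 2 * s j * (G (e, e • ξ) * EE s ξ) := by
        intro ξ
        unfold pd
        have d1 : DifferentiableAt ℝ (fun ξ : Fin N → ℝ => G (e, e • ξ)) ξ :=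
          ((hG.slice e).differentiable (by simp)) ξ
        have d2 : DifferentiableAt ℝ (EE s) ξ := ((contDiff_EE s).differentiable (by simp)) ξ
        rw [fderiv_fun_mul d1 d2]
        simp only [ContinuousLinearMap.add_apply, ContinuousLinearMap.smul_apply, smul_eq_mul]
        rw [fderiv_EE, pd_slice hG.smooth]
        ring
      calc ∫ ξ, (R.θ (MvPolynomial.X j) H).1 ξ * (G (e, e • ξ) * EE s ξ)
          = ∫ ξ, (-(1 / 2) : ℂ) * (pd j H.1 ξ * (G (e, e • ξ) * EE s ξ)) := by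
            apply integral_congr_ae
            refine Filter.Eventually.of_forall (fun ξ => ?_)
            simp only [h2]
            ring
        _ = (-(1 / 2) : ℂ) * ∫ ξ, pd j H.1 ξ * (G (e, e • ξ) * EE s ξ) := integral_const_mul _ _
        _ = (1 / 2 : ℂ) * ∫ ξ, H.1 ξ * pd j (fun ξ => G (e, e • ξ) * EE s ξ) ξ := by
            rw [h3]; ring
        _ = ∫ ξ, (1 / 2 : ℂ) * (H.1 ξ * pd j (fun ξ => G (e, e • ξ) * EE s ξ) ξ) :=
            (integral_const_mul _ _).symm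
        _ = _ := by
            apply integral_congr_ae
            refine Filter.Eventually.of_forall (fun ξ => ?_)
            simp only [h4]
            ring

theorem t_mel : S_MEL := by
  intro N R hR r P H s hsum hint
  classical
  -- a cut-off function
  obtain ⟨φ, hφ, hφc, hφ0⟩ : ∃ φ : (Fin N → ℝ) → ℂ, ContDiff ℝ (⊤ : ℕ∞) φ ∧
      HasCompactSupport φ ∧ φ 0 = 1 := by
    let b : ContDiffBump (0 : Fin N → ℝ) := ⟨1, 2, by norm_num, by norm_num⟩
    refine ⟨fun x => ((b x : ℝ) : ℂ), ?_, ?_, ?_⟩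
    · exact Complex.ofRealCLM.contDiff.comp b.contDiff
    · exact b.hasCompactSupport.comp_left (g := fun x : ℝ => (x : ℂ)) (by simp)
    · have : b 0 = 1 := b.one_of_mem_closedBall (by simp [b])
      simp [this]
  choose G hG hGi using main_ind R hR s φ hφ hφc hφ0
  -- the identity for every e
  have key : ∀ e : ℝ, 0 < e → ∑ i, ∫ ξ, (H i).1 ξ * (G (P i) (e, e • ξ) * EE s ξ) = 0 := by
    intro e he
    have h1 : ∀ i, ∫ ξ, (H i).1 ξ * (G (P i) (e, e • ξ) * EE s ξ) =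
        ∫ ξ, (R.θ (P i) (H i)).1 ξ * (φ (e • ξ) * EE s ξ) := fun i => (hGi (P i) e he (H i)).symm
    simp only [h1]
    rw [← integral_finset_sum]
    · have : ∀ ξ, ∑ i, (R.θ (P i) (H i)).1 ξ * (φ (e • ξ) * EE s ξ) = 0 := by
        intro ξ
        rw [← Finset.sum_mul]
        have h2 : ∑ i, (R.θ (P i) (H i)).1 ξ = (∑ i, R.θ (P i) (H i)).1 ξ := by
          have h3 : (∑ i, R.θ (P i) (H i)).1 = ∑ i, (R.θ (P i) (H i)).1 :=
            AddSubmonoidClass.coe_finset_sum _ _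
          rw [h3, Finset.sum_apply]
        rw [h2, hsum]
        simp
      simp [this]
    · intro i _
      exact ((show ContDiff ℝ (⊤ : ℕ∞) (R.θ (P i) (H i)).1 from (R.θ (P i) (H i)).2).continuous.mul
        (((hφ.comp (contDiff_id.const_smul e)).continuous).mul
          (contDiff_EE s).continuous)).integrable_of_hasCompactSupport
        (((hφc.comp_smul he.ne').mul_right (f' := EE s)).mul_left (f := (R.θ (P i) (H i)).1))
  -- the limit
  have lim : ∀ i, Tendsto (fun n : ℕ => ∫ ξ, (H i).1 ξ *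
      (G (P i) (1 / ((n : ℝ) + 1), (1 / ((n : ℝ) + 1)) • ξ) * EE s ξ)) atTop
      (𝓝 (∫ ξ, (H i).1 ξ * (MvPolynomial.eval s (P i) * EE s ξ))) := by
    intro i
    obtain ⟨C, hC⟩ := (hG (P i)).bdd
    have hin : Integrable (fun ξ => (H i).1 ξ * EE s ξ) := hint i
    apply tendsto_integral_of_dominated_convergence (fun ξ => C * ‖(H i).1 ξ * EE s ξ‖)
    · intro n
      exact ((show ContDiff ℝ (⊤ : ℕ∞) (H i).1 from (H i).2).continuous.mul
        (((hG (P i)).slice _).continuous.mul (contDiff_EE s).continuous)).aestronglyMeasurable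
    · exact hin.norm.const_mul C
    · intro n
      refine Filter.Eventually.of_forall (fun ξ => ?_)
      have h0 : (1 / ((n : ℝ) + 1)) ∈ Set.Icc (0 : ℝ) 1 := by
        constructor
        · positivity
        · rw [div_le_one (by positivity)]; linarith [Nat.cast_nonneg (α := ℝ) n]
      have h1 := hC _ h0 ((1 / ((n : ℝ) + 1)) • ξ)
      calc ‖(H i).1 ξ * (G (P i) (1 / ((n : ℝ) + 1), (1 / ((n : ℝ) + 1)) • ξ) * EE s ξ)‖
          = ‖G (P i) (1 / ((n : ℝ) + 1), (1 / ((n : ℝ) + 1)) • ξ)‖ * ‖(H i).1 ξ * EE s ξ‖ := by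
            simp only [norm_mul]; ring
        _ ≤ C * ‖(H i).1 ξ * EE s ξ‖ := mul_le_mul_of_nonneg_right h1 (norm_nonneg _)
    · refine Filter.Eventually.of_forall (fun ξ => ?_)
      have h0 : Tendsto (fun n : ℕ => (1 / ((n : ℝ) + 1))) atTop (𝓝 0) :=
        tendsto_one_div_add_atTop_nhds_zero_nat
      have h1 : Tendsto (fun n : ℕ => ((1 / ((n : ℝ) + 1), (1 / ((n : ℝ) + 1)) • ξ) :
          ℝ × (Fin N → ℝ))) atTop (𝓝 (0, 0)) := by
        have h2 : Tendsto (fun n : ℕ => (1 / ((n : ℝ) + 1)) • ξ) atTop (𝓝 0) := by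
          have := h0.smul_const ξ
          simpa using this
        exact h0.prodMk_nhds h2
      have h3 := ((hG (P i)).smooth.continuous.tendsto (0, 0)).comp h1
      rw [(hG (P i)).val] at h3
      exact (h3.mul_const _).const_mul _
  have lim2 := tendsto_finset_sum Finset.univ (fun i _ => lim i)
  have h0 : ∀ n : ℕ, ∑ i, ∫ ξ, (H i).1 ξ *
      (G (P i) (1 / ((n : ℝ) + 1), (1 / ((n : ℝ) + 1)) • ξ) * EE s ξ) = 0 :=
    fun n => key _ (by positivity)
  simp only [h0] at lim2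
  have h5 := tendsto_nhds_unique lim2 tendsto_const_nhds
  rw [← h5]
  apply Finset.sum_congr rfl
  intro i _
  rw [← integral_const_mul]
  apply integral_congr_ae
  refine Filter.Eventually.of_forall (fun ξ => ?_)
  show _ = (H i).1 ξ * (MvPolynomial.eval s (P i) * EE s ξ)
  unfold EE
  ring

end

end Pool.Agent.W573.WH.Mel
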